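import Pool.Agent.R460.GQ.Conv

/-!
# The estimate for prime pairs in progressions, for almost all differences in every class of EVERY modulus
# `m ≤ x ^ (2 / 3 - ρ)`

For every modulus `m ≤ x ^ (2 / 3 - ρ)`, without any exceptional moduli, and every residue class `b` modulo `m` with
`gcd(b, m) ≤ (log x)^T`, all but at most `x / (m (log x)^A)` of the even differences `0 < d ≤ x / (log x)^(C + 6)`,
`d ≡ b (mod m)`, satisfy exactly the estimate of the problem, uniformly in the progressions: for all `q ≤ (log x)^B`,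
all `a` with `(a, q) = (a + d, q) = 1` and all `y ≤ x`, `|π_d(y; a, q) - M_d(y; q)| ≤ x / (log x)^C`.

Definition used: `Pool.Agent.H560R3.GB.C₂`, the twin prime constant `∏_{p > 2} (1 - 1 / (p - 1) ^ 2)`
(the infimum of the partial products).

Proof (`R460/GQ`, `R460/GH`). The mean square over the differences `d ≡ b (mod m)` of
`∑_{n ≡ a (q)} Λ(n) (Λ(n + d) - Λ_z(n + d))`, where `Λ_z` is a sieve model, is estimated for the modulus `m q`.
For `m q ≤ x ^ (2 / 3 - ρ)` the sums of `Λ` over the characters modulo `m q` are small in mean square, for all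
characters outside small neighbourhoods of the fractions with small denominators, and for all but few bad characters
there. The bad characters of a large conductor contribute sums `∑ Λ(n) χ(d + n)` over shifted progressions, which are
small if `gcd(b, m)` is small; the condition `n ≡ a (mod q)` is expressed by characters of `d + n` modulo `q`, since
`(a + d, q) = 1`. No zero-free region for the characters modulo `m` is needed.
-/

set_option autoImplicit false

namespace Pool.Agent.Results.MP_92ef0c_nt.EveryModulusOfDifferences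

open Finset Pool.Agent.H560R3.GB

open Classical in
/-- `π_d(y; a, q)`: the number of primes `p ≤ y` with `p + d ≤ y` prime and `p ≡ a (mod q)`. (For even
`d > 0` such a prime `p` is automatically odd.) -/
noncomputable def pairs (d : ℕ) (y : ℝ) (a q : ℕ) : ℕ :=
  ((range (⌊y⌋₊ + 1)).filter (fun p => p.Prime ∧ (p + d).Prime ∧ (p : ℝ) + d ≤ y ∧ p ≡ a [MOD q])).card

/-- The main term `M_d(y; q)` of the problem. -/
noncomputable def main (d : ℕ) (y : ℝ) (q : ℕ) : ℝ :=
  2 / (((range q).filter (fun α => Nat.Coprime α q ∧ Nat.Coprime (α + d) q)).card : ℝ) *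
    (∏ p ∈ d.primeFactors.filter (fun p => 2 < p), ((p : ℝ) - 1) / ((p : ℝ) - 2)) * C₂ *
    ∫ t in (2 : ℝ)..y, 1 / Real.log t ^ 2

/-- The estimate of the problem for the difference `d`, with the bound `x / (log x) ^ C`, for all `y ≤ x`, all
moduli `q ≤ (log x) ^ B` and all admissible classes `a`. -/
def Holds (B C : ℕ) (x : ℝ) (d : ℕ) : Prop :=
  ∀ q a : ℕ, 1 ≤ q → (q : ℝ) ≤ Real.log x ^ B → Nat.Coprime a q → Nat.Coprime (a + d) q →
    ∀ y : ℝ, 2 ≤ y → y ≤ x → |(pairs d y a q : ℝ) - main d y q| ≤ x / Real.log x ^ C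

/-- The even differences `0 < d ≤ x / (log x) ^ (C + 6)` with `d ≡ b (mod m)` for which `Holds` fails. -/
def exceptional (B C : ℕ) (x : ℝ) (m : ℕ) (b : ℤ) : Set ℕ :=
  {d : ℕ | 0 < d ∧ (d : ℝ) ≤ x / Real.log x ^ (C + 6) ∧ Even d ∧ (d : ℤ) ≡ b [ZMOD m] ∧ ¬ Holds B C x d}

/-- For all `ρ > 0`, `A`, `B`, `C` and `T` and all sufficiently large real `x`: for EVERY integer
`1 ≤ m ≤ x ^ (2 / 3 - ρ)` and every integer `b` with `gcd(b, m) ≤ (log x)^T`, all but at most
`x / (m (log x)^A)` of the even differences `0 < d ≤ x / (log x) ^ (C + 6)`, `d ≡ b (mod m)`, have the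
property `Holds B C x d`: for all moduli `q ≤ (log x) ^ B`, all `a` with `(a, q) = (a + d, q) = 1` and all
`2 ≤ y ≤ x`, `|π_d(y; a, q) - M_d(y; q)| ≤ x / (log x) ^ C`. -/
theorem result (ρ : ℝ) (hρ : 0 < ρ) (A B C T : ℕ) :
    ∃ x₀ : ℝ, ∀ x : ℝ, x₀ ≤ x → ∀ m : ℕ, 1 ≤ m → (m : ℝ) ≤ x ^ (2 / 3 - ρ) → ∀ b : ℤ,
      (Int.gcd b m : ℝ) ≤ Real.log x ^ T →
        (exceptional B C x m b).Finite ∧ ((exceptional B C x m b).ncard : ℝ) ≤ x / (m * Real.log x ^ A) :=
  Pool.Agent.R460.GQ.gq_real ρ hρ A B C T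

end Pool.Agent.Results.MP_92ef0c_nt.EveryModulusOfDifferences
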