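import Mathlib
import Pool.Agent.R463.EX13

set_option autoImplicit false

/-!
# The exact local structure of the almost prime pairs `n`, `n + d` in arithmetic progressions to large moduli
-/

namespace Pool.Agent.Results.MP_92ef0c_nt.ExactBlocks

open Finset Filter

/-- for `n = q m + c` neither `n` nor `n + d` has a prime factor `p ≤ X ^ (1 / r)` -/
def Good (d q c X r m : ℕ) : Prop :=
  ∀ p : ℕ, p.Prime → (p : ℝ) ≤ (X : ℝ) ^ (1 / (r : ℝ)) → ¬ p ∣ q * m + c ∧ ¬ p ∣ q * m + c + d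

/-- `0` for the prime factors of `q`, `1` for the other prime factors of `d`, `2` for the other primes -/
def nu (d q p : ℕ) : ℕ := if p ∣ q then 0 else if p ∣ d then 1 else 2

/-- the density of the good integers: the product of `1 - nu(p) / p` over the primes `p ≤ X ^ (1 / r)` -/
noncomputable def V (d q X r : ℕ) : ℝ :=
  ∏ p ∈ (Icc 1 ⌊(X : ℝ) ^ (1 / (r : ℝ))⌋₊).filter Nat.Prime, (1 - (nu d q p : ℝ) / p)

open Classical in
/-- the number of the residues `m` modulo `p` for which `p` divides `n` or `n + d` for an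
`n = q (m + h) + c`, `h ∈ H` -/
noncomputable def nuH (d q c : ℕ) (H : Finset ℕ) (p : ℕ) : ℕ :=
  ((range p).filter (fun m : ℕ => ∃ h ∈ H, p ∣ q * (m + h) + c ∨ p ∣ q * (m + h) + c + d)).card

/-- the density of the pattern `H`: the product of `1 - nuH(p) / p` over the primes `p ≤ X ^ (1 / r)` -/
noncomputable def VH (d q c : ℕ) (H : Finset ℕ) (X r : ℕ) : ℝ :=
  ∏ p ∈ (Icc 1 ⌊(X : ℝ) ^ (1 / (r : ℝ))⌋₊).filter Nat.Prime, (1 - (nuH d q c H p : ℝ) / p)

open Classical in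
/-- the number of the `m` in `(Z, Z + Y]` for which the good integers in `[m, m + L]` are exactly the
integers `m + h` with `h ∈ H` -/
noncomputable def Blocks (d q c : ℕ) (H : Finset ℕ) (L X r Z Y : ℕ) : ℕ :=
  ((Ioc Z (Z + Y)).filter (fun m => ∀ h ≤ L, Good d q c X r (m + h) ↔ h ∈ H)).card

/-- **The exact local structure of the almost prime pairs in progressions.** For `A, δ, θ > 0`, `K`, `x₀` and
`ε > 0` there is `r₀` such that for all `r ≥ r₀` and all large `X` the following holds uniformly for ALL even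
`0 < d ≤ X ^ A` and ALL moduli `q ≤ X ^ A` and residues `c ≤ X ^ A` with `q` prime to `c` and to `c + d` such
that `d` is not of the form `q t` with `t ≤ X ^ δ`, for ALL intervals `(Z, Z + Y]` with `Y ≥ X ^ θ`, ALL sets
`H` of at most `K` natural numbers with `0 ∈ H` and all `L ≥ max H` with `L V ≤ x₀`: the number of the `m` in
the interval for which the good integers in `[m, m + L]` are exactly the `m + h`, `h ∈ H`, is
`Y VH exp (- L V)`, up to the factor `1 ± ε`. -/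
theorem result (A δ θ : ℝ) (K : ℕ) (hA : 0 < A) (hδ : 0 < δ) (hθ : 0 < θ) (x₀ ε : ℝ) (hε : 0 < ε) :
    ∃ r₀ : ℕ, 2 ≤ r₀ ∧ ∀ r : ℕ, r₀ ≤ r → ∀ᶠ X : ℕ in atTop, ∀ d q c : ℕ, Even d → 1 ≤ d →
      (d : ℝ) ≤ (X : ℝ) ^ A → 1 ≤ q → (q : ℝ) ≤ (X : ℝ) ^ A → (c : ℝ) ≤ (X : ℝ) ^ A → Nat.Coprime q c →
      Nat.Coprime q (c + d) → (∀ t : ℕ, 1 ≤ t → (t : ℝ) ≤ (X : ℝ) ^ δ → d ≠ q * t) →
      ∀ Z Y : ℕ, (X : ℝ) ^ θ ≤ Y → ∀ H : Finset ℕ, H.card ≤ K → 0 ∈ H → ∀ L : ℕ,
        (∀ h ∈ H, h ≤ L) → L * V d q X r ≤ x₀ →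
        |(Blocks d q c H L X r Z Y : ℝ) - Y * VH d q c H X r * Real.exp (-(L * V d q X r))| ≤
          ε * (Y * VH d q c H X r * Real.exp (-(L * V d q X r))) :=
  Pool.Agent.R463.PS.blocksPr A δ θ K hA hδ hθ x₀ ε hε

end Pool.Agent.Results.MP_92ef0c_nt.ExactBlocks
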