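import Mathlib
import Pool.Agent.R463.Pair2

set_option autoImplicit false

/-!
# Primes `p ≡ c (mod q)` with `p + d` almost prime: number and Poisson law

For a squarefree modulus `q`, all residues `c` and uniformly in the even `d ≤ X ^ A`: the number of the primes
`p ≡ c (mod q)` in a window for which `p + d` has no prime factor `≤ X ^ (1 / r)`, and the Poisson law of the almost
prime pairs following them in the progression.
-/

namespace Pool.Agent.Results.MP_92ef0c_nt.LawAfterPrimes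

open Finset Filter

/-- for `n = q m + c` neither `n` nor `n + d` has a prime factor `p ≤ X ^ (1 / r)` -/
def Good (d q c X r m : ℕ) : Prop :=
  ∀ p : ℕ, p.Prime → (p : ℝ) ≤ (X : ℝ) ^ (1 / (r : ℝ)) → ¬ p ∣ q * m + c ∧ ¬ p ∣ q * m + c + d

/-- `0` for the prime factors of `q`, `1` for the other prime factors of `d`, `2` for the other primes -/
def nu (d q p : ℕ) : ℕ := if p ∣ q then 0 else if p ∣ d then 1 else 2

/-- the density of the good integers: the product of `1 - nu(p) / p` over the primes `p ≤ X ^ (1 / r)` -/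
noncomputable def V (d q X r : ℕ) : ℝ :=
  ∏ p ∈ (Icc 1 ⌊(X : ℝ) ^ (1 / (r : ℝ))⌋₊).filter Nat.Prime, (1 - (nu d q p : ℝ) / p)

/-- the product of `(1 - nu(p) / p) / (1 - 1 / p)` over the primes `p ≤ X ^ (1 / r)` -/
noncomputable def W (d q X r : ℕ) : ℝ :=
  ∏ p ∈ (Icc 1 ⌊(X : ℝ) ^ (1 / (r : ℝ))⌋₊).filter Nat.Prime, (1 - (nu d q p : ℝ) / p) / (1 - 1 / (p : ℝ))

open Classical in
/-- the good `m` in `(B, B + L]` for which `q m + c` is a PRIME -/
noncomputable def Pr (d q c X r B L : ℕ) : Finset ℕ :=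
  (Ioc B (B + L)).filter (fun m => (q * m + c).Prime ∧ Good d q c X r m)

open Classical in
/-- the number of the good integers in `(m, m + T]` -/
noncomputable def Next (d q c X r T m : ℕ) : ℕ :=
  ((Ioc m (m + T)).filter (fun n => Good d q c X r n)).card

/-- **The law after primes for pairs in progressions.** Let `q` be squarefree. For `A, δ', θ > 0`,
`0 < δ ≤ 1`, `x₀` and `0 < ε ≤ 1` there is `r₀` such that for all `r ≥ r₀` and all large `X`, uniformly for ALL
even `0 < d ≤ X ^ A` which are not of the form `q t` with `t ≤ X ^ δ'` (for a fixed `d`: `q` does not divide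
`d`) and all residues `c ≤ q` with `q` prime to `c` and to `c + d`, for all `x ≥ X ^ θ` and all windows
`(B, B + L]` in `(0, x]` with `L ≥ δ x`:
(1) the number of the `m` in the window for which `q m + c` is a PRIME `> X ^ (1 / r)` and `q m + c + d` has no
prime factor `≤ X ^ (1 / r)` is `(1 + η) L W / log x`, `|η| ≤ ε`;
(2) for `T V ≤ x₀` the number of the good integers in `(m, m + T]`, `m` running over the set in (1), has
the Poisson law of mean `T V`, up to `ε`. -/
theorem result (q : ℕ) (hq : Squarefree q) (A δ' θ δ : ℝ) (hA : 0 < A) (hδ' : 0 < δ') (hθ : 0 < θ)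
    (hδ : 0 < δ) (hδ1 : δ ≤ 1) (x₀ ε : ℝ) (hε : 0 < ε) (hε1 : ε ≤ 1) :
    ∃ r₀ : ℕ, 2 ≤ r₀ ∧ ∀ r : ℕ, r₀ ≤ r → ∀ᶠ X : ℕ in atTop, ∀ d c : ℕ, Even d → 1 ≤ d →
      (d : ℝ) ≤ (X : ℝ) ^ A → c ≤ q → Nat.Coprime q c →
      Nat.Coprime q (c + d) → (∀ t : ℕ, 1 ≤ t → (t : ℝ) ≤ (X : ℝ) ^ δ' → d ≠ q * t) →
      0 < V d q X r ∧ 0 < W d q X r ∧
      ∀ x : ℕ, (X : ℝ) ^ θ ≤ x → ∀ B L : ℕ, δ * x ≤ L → B + L ≤ x →
        |((Pr d q c X r B L).card : ℝ) * Real.log x - L * W d q X r| ≤ ε * (L * W d q X r) ∧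
        ∀ T : ℕ, T * V d q X r ≤ x₀ → ∀ J : Finset ℕ,
          |(((Pr d q c X r B L).filter (fun m => Next d q c X r T m ∈ J)).card : ℝ) -
            (Pr d q c X r B L).card *
              ∑ j ∈ J, Real.exp (-(T * V d q X r)) * (T * V d q X r) ^ j / j.factorial| ≤
            ε * (Pr d q c X r B L).card :=
  Pool.Agent.R463.PS.afterP q hq A δ' θ δ hA hδ' hθ hδ hδ1 x₀ ε hε hε1

end Pool.Agent.Results.MP_92ef0c_nt.LawAfterPrimes
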