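import Mathlib
import Pool.Agent.R463.Pair2

set_option autoImplicit false

/-!
# Regular points of arbitrary sets of pairs `n`, `n + d` in arithmetic progressions

Arbitrary sets of the `n ≡ c (mod q)` for which neither `n` nor `n + d` has a prime factor `≤ X ^ (1 / r)`, for
instance arbitrary sets of prime pairs, in short intervals, uniformly in `q ≤ X ^ A` and the even `d ≤ X ^ A`.
-/

namespace Pool.Agent.Results.MP_92ef0c_nt.RegularPoints

open Finset Filter
open Pool.Agent.R463.PS (Regular)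

/-- for `n = q m + c` neither `n` nor `n + d` has a prime factor `p ≤ X ^ (1 / r)` -/
def Good (d q c X r m : ℕ) : Prop :=
  ∀ p : ℕ, p.Prime → (p : ℝ) ≤ (X : ℝ) ^ (1 / (r : ℝ)) → ¬ p ∣ q * m + c ∧ ¬ p ∣ q * m + c + d

/-- `0` for the prime factors of `q`, `1` for the other prime factors of `d`, `2` for the other primes -/
def nu (d q p : ℕ) : ℕ := if p ∣ q then 0 else if p ∣ d then 1 else 2

/-- the density of the good integers: the product of `1 - nu(p) / p` over the primes `p ≤ X ^ (1 / r)` -/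
noncomputable def V (d q X r : ℕ) : ℝ :=
  ∏ p ∈ (Icc 1 ⌊(X : ℝ) ^ (1 / (r : ℝ))⌋₊).filter Nat.Prime, (1 - (nu d q p : ℝ) / p)

open Classical in
/-- **Regular points of arbitrary sets of almost prime pairs in progressions.**

`Regular S V κ δ D Y m`: every interval `(m - s, m + t]`, `s, t ≤ Y`, with `κ (s + t) V ≥ 1` contains
between `κ (s + t) V` and `(s + t) V / κ` elements of `S`, and for all scales `1 / V ≤ 2 ^ j ≤ Y` with at
most `D` exceptions there is a density `κ ≤ lam ≤ 1 / κ` such that all intervals `(m - s, m + t]`,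
`s, t ≤ 2 ^ j`, contain `lam (s + t) V` elements of `S`, up to `δ 2 ^ j V`.

For `A, θ > 0` there is `r₀` such that for all `r ≥ r₀` and `ε > 0` there is `κ > 0`, and for all `δ > 0`
there is `D`, such that for all large `X` the following holds uniformly for ALL even `0 < d ≤ X ^ A` and ALL
moduli `1 ≤ q ≤ X ^ A` and residues `c ≤ X ^ A` with `q` prime to `c` and to `c + d`, all intervals
`(u, u + Y]` with `X ^ θ ≤ Y ≤ X`, `Y ≤ u`, and EVERY set `S` of good integers: at most `ε Y V` elements of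
`S` in `(u, u + Y]` are not regular points of `S`. -/
theorem result (A θ : ℝ) (hA : 0 < A) (hθ : 0 < θ) :
    ∃ r₀ : ℕ, 2 ≤ r₀ ∧ ∀ r : ℕ, r₀ ≤ r → ∀ ε : ℝ, 0 < ε → ∃ κ : ℝ, 0 < κ ∧ ∀ δ : ℝ, 0 < δ →
      ∃ D : ℕ, ∀ᶠ X : ℕ in atTop, ∀ d q c : ℕ, Even d → 1 ≤ d → (d : ℝ) ≤ (X : ℝ) ^ A →
      1 ≤ q → (q : ℝ) ≤ (X : ℝ) ^ A → (c : ℝ) ≤ (X : ℝ) ^ A → Nat.Coprime q c → Nat.Coprime q (c + d) →
      ∀ u Y : ℕ, (X : ℝ) ^ θ ≤ Y → Y ≤ X → Y ≤ u →
      ∀ S : Set ℕ, (∀ m ∈ S, Good d q c X r m) →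
        (((Ioc u (u + Y)).filter (fun m => m ∈ S ∧ ¬ Regular S (V d q X r) κ δ D Y m)).card : ℝ) ≤
          ε * (Y * V d q X r) :=
  Pool.Agent.R463.PS.regP A θ hA hθ

end Pool.Agent.Results.MP_92ef0c_nt.RegularPoints
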